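import Mathlib
import Pool.Agent.X314.Clausen

/-!
# MP_5cc6ce_nt, Q1: `n ∣ ∑_{k<n} (-1)^k (42k+37) a(k)` for every `n ≥ 1`

`a(k) = ∑_j C(k,j)² C(k-j,j)² (-16)^j`.

* `S(N) = ∑_k (-16)^k C(2k,k)² (21 V(2k) + 2 (21k+8) W(2k))` with
  `W(m) = ∑_{n<N} (-1)^n C(n,m)²` and `V(m) = ∑_{n<N} (-1)^n (2n+1-m) C(n,m)²`.
* Two-term recurrences (in `m`) for `W` and `V`, with inhomogeneous parts divisible by `N` after
  multiplication by `N+1` and `(N+1)²`.
* Summation by parts with `Y(K) = ∑_{i<K} C(K-1+i,i)²` and `X(K) = ∑_{i<K} 16^i C(2i,i)`.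
-/

set_option autoImplicit false
set_option linter.unusedSectionVars false

open Finset

namespace Pool.Agent.Results.MP_5cc6ce_nt.Divisibility

/-- the sequence `a(n)` -/
def a (n : ℕ) : ℤ :=
  ∑ k ∈ range (n + 1), (-16) ^ k * (n.choose k : ℤ) ^ 2 * ((n - k).choose k : ℤ) ^ 2

/-- `W(N,m) = ∑_{n<N} (-1)^n C(n,m)²` -/
def W (N m : ℕ) : ℤ := ∑ n ∈ range N, (-1) ^ n * (n.choose m : ℤ) ^ 2

lemma W_rec (m N : ℕ) : ((m : ℤ) + 2) * ((m + 1) * W N m + 4 * (m + 2) * W N (m + 2))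
    = (-1) ^ N * (N.choose (m + 1) : ℤ) ^ 2
      * (-2 * N ^ 2 + (6 * m + 8) * N - (m + 1) * (5 * m + 8)) := by
  induction N with
  | zero => simp [W]
  | succ n ih =>
    have e1 : W (n + 1) m = W n m + (-1) ^ n * (n.choose m : ℤ) ^ 2 := by
      rw [W, Finset.sum_range_succ]
      rfl
    have e2 : W (n + 1) (m + 2) = W n (m + 2) + (-1) ^ n * (n.choose (m + 2) : ℤ) ^ 2 := by
      rw [W, Finset.sum_range_succ]
      rfl
    have r1 : (n.choose (m + 1) : ℤ) * (m + 1) = n.choose m * ((n : ℤ) - m) := by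
      rcases le_or_gt m n with h | h
      · have := Nat.choose_succ_right_eq n m
        have h2 := congrArg (Nat.cast : ℕ → ℤ) this
        rw [Nat.cast_mul, Nat.cast_mul, Nat.cast_sub h] at h2
        push_cast at h2
        exact h2
      · rw [Nat.choose_eq_zero_of_lt h, Nat.choose_eq_zero_of_lt (by omega)]
        simp
    have r2 : (n.choose (m + 2) : ℤ) * (m + 2) = n.choose (m + 1) * ((n : ℤ) - m - 1) := by
      rcases le_or_gt (m + 1) n with h | h
      · have := Nat.choose_succ_right_eq n (m + 1)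
        have h2 := congrArg (Nat.cast : ℕ → ℤ) this
        rw [Nat.cast_mul, Nat.cast_mul, Nat.cast_sub h] at h2
        push_cast at h2
        linear_combination h2
      · rw [Nat.choose_eq_zero_of_lt h, Nat.choose_eq_zero_of_lt (by omega)]
        simp
    have r3 : ((n + 1).choose (m + 1) : ℤ) = n.choose m + n.choose (m + 1) := by
      rw [Nat.choose_succ_succ]
      push_cast
      ring
    rw [e1, e2, r3, pow_succ]
    push_cast
    linear_combination ih + (-1) ^ n * ((2 * ((n : ℤ) - 2 * m - 2) * n.choose m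
      + (4 * n - 6 * m - 6) * n.choose (m + 1)) * r1
      + 4 * ((n.choose (m + 2) : ℤ) * (m + 2) + n.choose (m + 1) * ((n : ℤ) - m - 1)) * r2)

/-- `V(N,m) = ∑_{n<N} (-1)^n (2n+1-m) C(n,m)²` -/
def V (N m : ℕ) : ℤ := ∑ n ∈ range N, (-1) ^ n * (2 * (n : ℤ) + 1 - m) * (n.choose m : ℤ) ^ 2

/-- the polynomial of the telescoping -/
def sg (m n : ℤ) : ℤ := -4 * n ^ 3 + (14 * m + 20) * n ^ 2 - 4 * (m + 1) * (4 * m + 7) * n
  + (5 * m ^ 3 + 18 * m ^ 2 + 18 * m + 4)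

lemma V_rec (m N : ℕ) : ((m : ℤ) + 2) ^ 2 * (4 * (m + 1) * V N (m + 2) + (m + 2) * V N m)
    = (-1) ^ N * ((m + 1) * sg m N) * (N.choose (m + 1) : ℤ) ^ 2 := by
  induction N with
  | zero => simp [V]
  | succ n ih =>
    have e1 : V (n + 1) m = V n m + (-1) ^ n * (2 * (n : ℤ) + 1 - m) * (n.choose m : ℤ) ^ 2 := by
      rw [V, Finset.sum_range_succ]
      rfl
    have e2 : V (n + 1) (m + 2) = V n (m + 2)
        + (-1) ^ n * (2 * (n : ℤ) + 1 - (m + 2 : ℕ)) * (n.choose (m + 2) : ℤ) ^ 2 := by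
      rw [V, Finset.sum_range_succ]
      rfl
    have r1 : (n.choose (m + 1) : ℤ) * (m + 1) = n.choose m * ((n : ℤ) - m) := by
      rcases le_or_gt m n with h | h
      · have := Nat.choose_succ_right_eq n m
        have h2 := congrArg (Nat.cast : ℕ → ℤ) this
        rw [Nat.cast_mul, Nat.cast_mul, Nat.cast_sub h] at h2
        push_cast at h2
        exact h2
      · rw [Nat.choose_eq_zero_of_lt h, Nat.choose_eq_zero_of_lt (by omega)]
        simp
    have r2 : (n.choose (m + 2) : ℤ) * (m + 2) = n.choose (m + 1) * ((n : ℤ) - m - 1) := by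
      rcases le_or_gt (m + 1) n with h | h
      · have := Nat.choose_succ_right_eq n (m + 1)
        have h2 := congrArg (Nat.cast : ℕ → ℤ) this
        rw [Nat.cast_mul, Nat.cast_mul, Nat.cast_sub h] at h2
        push_cast at h2
        linear_combination h2
      · rw [Nat.choose_eq_zero_of_lt h, Nat.choose_eq_zero_of_lt (by omega)]
        simp
    have r3 : ((n + 1).choose (m + 1) : ℤ) = n.choose m + n.choose (m + 1) := by
      rw [Nat.choose_succ_succ]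
      push_cast
      ring
    rw [e1, e2, r3, pow_succ]
    unfold sg at ih ⊢
    push_cast
    linear_combination ih + (-1) ^ n * (((4 * ((m : ℤ) + 1) * n ^ 2
      - (10 * m ^ 2 + 18 * m + 8) * n + (4 * m ^ 3 + 2 * m ^ 2 - 16 * m - 16)) * n.choose m
      + (8 * ((m : ℤ) + 1) * n ^ 2 - (16 * m ^ 2 + 28 * m + 12) * n
      + (6 * m ^ 3 + 8 * m ^ 2 - 6 * m - 8)) * n.choose (m + 1)) * r1
      + 4 * ((m : ℤ) + 1) * (2 * n - 1 - m) * ((n.choose (m + 2) : ℤ) * (m + 2)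
      + n.choose (m + 1) * ((n : ℤ) - m - 1)) * r2)

lemma S_eq (p : ℕ) : ∑ n ∈ range p, (-1) ^ n * (42 * (n : ℤ) + 37) * a n
    = ∑ k ∈ range p, (-16) ^ k * ((2 * k).choose k : ℤ) ^ 2
      * (21 * V p (2 * k) + 2 * (21 * k + 8) * W p (2 * k)) := by
  have e1 : ∀ n ∈ range p, (-1) ^ n * (42 * (n : ℤ) + 37) * a n
      = ∑ k ∈ range p, (-16) ^ k * ((2 * k).choose k : ℤ) ^ 2
        * ((-1) ^ n * (42 * (n : ℤ) + 37) * (n.choose (2 * k) : ℤ) ^ 2) := by
    intro n hn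
    rw [Finset.mem_range] at hn
    rw [a, Finset.mul_sum]
    have e2 : ∀ k ∈ range (n + 1),
        (-1 : ℤ) ^ n * (42 * (n : ℤ) + 37) * ((-16) ^ k * (n.choose k : ℤ) ^ 2 * ((n - k).choose k : ℤ) ^ 2)
        = (-16) ^ k * ((2 * k).choose k : ℤ) ^ 2
          * ((-1) ^ n * (42 * (n : ℤ) + 37) * (n.choose (2 * k) : ℤ) ^ 2) := by
      intro k hk
      rw [Finset.mem_range] at hk
      have e3 : n.choose k * (n - k).choose k = n.choose (2 * k) * (2 * k).choose k := by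
        rcases le_or_gt (2 * k) n with h | h
        · rw [Nat.choose_mul (by omega), show 2 * k - k = k by omega]
        · rw [Nat.choose_eq_zero_of_lt h, Nat.choose_eq_zero_of_lt (show n - k < k by omega)]
          simp
      have e4 := congrArg (Nat.cast : ℕ → ℤ) e3
      push_cast at e4
      linear_combination ((-1) ^ n * (42 * (n : ℤ) + 37) * (-16) ^ k
        * ((n.choose k : ℤ) * ((n - k).choose k : ℤ)
        + (n.choose (2 * k) : ℤ) * ((2 * k).choose k : ℤ))) * e4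
    rw [Finset.sum_congr rfl e2]
    apply Finset.sum_subset
    · intro k hk
      rw [Finset.mem_range] at hk ⊢
      omega
    · intro k hk hk2
      rw [Finset.mem_range] at hk hk2
      rw [Nat.choose_eq_zero_of_lt (show n < 2 * k by omega)]
      simp
  rw [Finset.sum_congr rfl e1, Finset.sum_comm]
  refine Finset.sum_congr rfl fun k _ => ?_
  rw [← Finset.mul_sum]
  congr 1
  have hV : V p (2 * k) = ∑ n ∈ range p, (-1) ^ n * (2 * (n : ℤ) + 1 - (2 * k : ℕ))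
    * (n.choose (2 * k) : ℤ) ^ 2 := rfl
  have hW : W p (2 * k) = ∑ n ∈ range p, (-1) ^ n * (n.choose (2 * k) : ℤ) ^ 2 := rfl
  rw [hV, hW, Finset.mul_sum, Finset.mul_sum, ← Finset.sum_add_distrib]
  refine Finset.sum_congr rfl fun n _ => ?_
  push_cast
  ring

/-- partial sums of the telescoping for `21k+8` -/
lemma partial21 (m j : ℕ) : 2 * (2 * (m : ℤ) + 3) * ∑ k ∈ range j, ((m + 1 + k).choose k : ℤ) ^ 2
    - (m + 1) * ∑ k ∈ range j, ((m + k).choose k : ℤ) ^ 2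
    = (2 * j + 3 * (m + 1)) * ((m + j).choose (m + 1) : ℤ) ^ 2 := by
  induction j with
  | zero => simp
  | succ j ih =>
    rw [Finset.sum_range_succ, Finset.sum_range_succ]
    have r1 : ((m + j).choose (m + 1) : ℤ) * (m + 1) = ((m + j).choose m : ℤ) * j := by
      have := congrArg (Nat.cast : ℕ → ℤ) (Nat.choose_succ_right_eq (m + j) m)
      rw [show m + j - m = j by omega] at this
      push_cast at this
      exact this
    have r2 : ((m + (j + 1)).choose (m + 1) : ℤ)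
        = ((m + j).choose m : ℤ) + ((m + j).choose (m + 1) : ℤ) := by
      rw [show m + (j + 1) = (m + j) + 1 by ring, Nat.choose_succ_succ]
      push_cast
      ring
    have r3 : ((m + 1 + j).choose j : ℤ)
        = ((m + j).choose m : ℤ) + ((m + j).choose (m + 1) : ℤ) := by
      rw [← r2]
      congr 1
      rw [show m + (j + 1) = m + 1 + j by ring, Nat.choose_symm_add]
    have r4 : ((m + j).choose j : ℤ) = ((m + j).choose m : ℤ) := by
      rw [Nat.choose_symm_add]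
    rw [r2, r3, r4]
    push_cast
    linear_combination ih + (2 * ((m + j).choose m : ℤ) + 4 * ((m + j).choose (m + 1) : ℤ)) * r1

lemma sum21 (m : ℕ) : ∑ k ∈ range (m + 1), (21 * (k : ℤ) + 8) * ((2 * k).choose k : ℤ) ^ 3
    = 4 * (m + 1) * ((2 * (m + 1)).choose (m + 1) : ℤ)
      * ∑ k ∈ range (m + 1), ((m + k).choose k : ℤ) ^ 2 := by
  induction m with
  | zero => simp
  | succ m ih =>
    have h1 := partial21 m (m + 1)
    have h2 : ((m : ℤ) + 1 + 1) * ((2 * (m + 1 + 1)).choose (m + 1 + 1) : ℤ)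
        = 2 * (2 * (m + 1) + 1) * ((2 * (m + 1)).choose (m + 1) : ℤ) := by
      have := congrArg (Nat.cast : ℕ → ℤ) (Pool.Agent.X314.Clausen.cb_rec (m + 1))
      push_cast at this
      exact this
    have h3 : ((2 * (m + 1)).choose (m + 1) : ℤ) = 2 * ((m + (m + 1)).choose (m + 1) : ℤ) := by
      rw [show 2 * (m + 1) = (m + (m + 1)) + 1 by ring, Nat.choose_succ_succ]
      have : (m + (m + 1)).choose m = (m + (m + 1)).choose (m + 1) := by
        rw [Nat.choose_symm_add]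
      rw [this]
      push_cast
      ring
    rw [Finset.sum_range_succ, ih, Finset.sum_range_succ (fun k => ((m + 1 + k).choose k : ℤ) ^ 2)]
    have h4 : ((m + 1 + (m + 1)).choose (m + 1) : ℤ) = ((2 * (m + 1)).choose (m + 1) : ℤ) := by
      rw [two_mul]
    rw [h4]
    push_cast at h1 ⊢
    linear_combination (-4 * ((2 * (m + 1)).choose (m + 1) : ℤ)) * h1
      + (-4 * (∑ k ∈ range (m + 1), ((m + 1 + k).choose k : ℤ) ^ 2
        + ((2 * (m + 1)).choose (m + 1) : ℤ) ^ 2)) * h2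
      + (5 * ((m : ℤ) + 1) * ((2 * (m + 1)).choose (m + 1) : ℤ)
        * (((2 * (m + 1)).choose (m + 1) : ℤ) + 2 * ((m + (m + 1)).choose (m + 1) : ℤ))) * h3


lemma cb_rec' (K : ℕ) : ((K : ℤ) + 1) * ((2 * K + 2).choose (K + 1) : ℤ)
    = 2 * (2 * K + 1) * ((2 * K).choose K : ℤ) := by
  have := congrArg (Nat.cast : ℕ → ℤ) (Pool.Agent.X314.Clausen.cb_rec K)
  rw [show 2 * (K + 1) = 2 * K + 2 by ring] at this
  push_cast at this
  exact this

lemma cb_pos (K : ℕ) : ((2 * K).choose K : ℤ) ≠ 0 := by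
  have : 0 < (2 * K).choose K := Nat.choose_pos (by omega)
  exact_mod_cast this.ne'

/-- `Y(K) = ∑_{i<K} C(K-1+i,i)²` -/
def Y (K : ℕ) : ℤ := ∑ i ∈ range K, ((K - 1 + i).choose i : ℤ) ^ 2

/-- `X(K) = ∑_{i<K} 16^i C(2i,i)` -/
def X (K : ℕ) : ℤ := ∑ i ∈ range K, 16 ^ i * ((2 * i).choose i : ℤ)

lemma Y_rec (K : ℕ) : 8 * (2 * (K : ℤ) + 1) * Y (K + 1) - 4 * K * Y K
    = (21 * K + 8) * ((2 * K).choose K : ℤ) ^ 2 := by
  rcases Nat.eq_zero_or_pos K with h | h
  · subst h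
    simp [Y]
  · obtain ⟨m, rfl⟩ : ∃ m, K = m + 1 := ⟨K - 1, by omega⟩
    have h1 := sum21 m
    have h2 := sum21 (m + 1)
    rw [Finset.sum_range_succ, h1] at h2
    have y1 : Y (m + 1) = ∑ k ∈ range (m + 1), ((m + k).choose k : ℤ) ^ 2 := by
      simp [Y]
    have y2 : Y (m + 1 + 1) = ∑ k ∈ range (m + 1 + 1), ((m + 1 + k).choose k : ℤ) ^ 2 := by
      simp [Y]
    rw [← y1, ← y2] at h2
    have h3 := cb_rec' (m + 1)
    rw [show 2 * (m + 1) + 2 = 2 * (m + 1 + 1) by ring] at h3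
    have h4 := cb_pos (m + 1)
    apply mul_left_cancel₀ h4
    push_cast at h2 h3 ⊢
    linear_combination (-1) * h2 + (-4 * Y (m + 1 + 1)) * h3

lemma ch1 (N K : ℕ) : (2 * (K : ℤ) + 2) * ((N + 1).choose (2 * K + 2) : ℤ)
    = (N + 1) * (N.choose (2 * K + 1) : ℤ) := by
  have := congrArg (Nat.cast : ℕ → ℤ) (Nat.add_one_mul_choose_eq N (2 * K + 1))
  push_cast at this
  linear_combination (-1) * this

lemma ch2 (n K : ℕ) : (2 * (K : ℤ) + 1) * ((n + 1).choose (2 * K + 1) : ℤ)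
    = (n + 1) * (n.choose (2 * K) : ℤ) := by
  have := congrArg (Nat.cast : ℕ → ℤ) (Nat.add_one_mul_choose_eq n (2 * K))
  push_cast at this
  linear_combination (-1) * this

/-- the polynomial in the recurrence for `W` -/
def q (N K : ℤ) : ℤ := -2 * N ^ 2 + (12 * K + 8) * N - (2 * K + 1) * (10 * K + 8)

/-- half of the polynomial in the recurrence for `V` -/
def s (N K : ℤ) : ℤ := -2 * N ^ 3 + (14 * K + 10) * N ^ 2 - 2 * (2 * K + 1) * (8 * K + 7) * N
  + (20 * K ^ 3 + 36 * K ^ 2 + 18 * K + 2)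

def e1 (N K : ℕ) : ℤ := ((N + 1).choose (2 * K + 2) : ℤ) * (N.choose (2 * K + 1) : ℤ) * q N K

def e2 (N K : ℕ) : ℤ := (2 * K + 1) * s N K * ((N + 1).choose (2 * K + 2) : ℤ) ^ 2

lemma W_step (N K : ℕ) : ((N : ℤ) + 1) * (8 * (K + 1) * W N (2 * K + 2)
    + (2 * K + 1) * W N (2 * K)) = (-1) ^ N * e1 N K := by
  have h1 := W_rec (2 * K) N
  have h2 := ch1 N K
  have h3 : (2 * (K : ℤ) + 2) ≠ 0 := by positivity
  apply mul_left_cancel₀ h3
  unfold e1 q
  push_cast at h1 ⊢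
  linear_combination ((N : ℤ) + 1) * h1 + (-(-1) ^ N * (N.choose (2 * K + 1) : ℤ)
    * (-2 * (N : ℤ) ^ 2 + (12 * K + 8) * N - (2 * K + 1) * (10 * K + 8))) * h2

lemma V_step (N K : ℕ) : ((N : ℤ) + 1) ^ 2 * (2 * (2 * K + 1) * V N (2 * K + 2)
    + (K + 1) * V N (2 * K)) = (-1) ^ N * e2 N K := by
  have h1 := V_rec (2 * K) N
  have h2 := ch1 N K
  have h3 : 2 * (2 * (K : ℤ) + 2) ^ 2 ≠ 0 := by positivity
  apply mul_left_cancel₀ h3
  unfold e2 s
  unfold sg at h1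
  push_cast at h1 ⊢
  linear_combination ((N : ℤ) + 1) ^ 2 * h1 + (-(-1) ^ N * 2 * (2 * K + 1)
    * (-2 * (N : ℤ) ^ 3 + (14 * K + 10) * N ^ 2 - 2 * (2 * K + 1) * (8 * K + 7) * N
    + (20 * K ^ 3 + 36 * K ^ 2 + 18 * K + 2))
    * ((2 * K + 2) * ((N + 1).choose (2 * K + 2) : ℤ) + (N + 1) * (N.choose (2 * K + 1) : ℤ))) * h2

lemma e1_dvd (n K : ℕ) : ((n : ℤ) + 1) ∣ e1 (n + 1) K := by
  have h : e1 (n + 1) K = (n + 1) * (((n + 1 + 1).choose (2 * K + 2) : ℤ)
      * ((-2 * (n + 1) + (12 * K + 8)) * ((n + 1).choose (2 * K + 1) : ℤ)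
        - (10 * K + 8) * (n.choose (2 * K) : ℤ))) := by
    have h2 := ch2 n K
    unfold e1 q
    push_cast
    linear_combination (-((n + 1 + 1).choose (2 * K + 2) : ℤ) * (10 * K + 8)) * h2
  rw [h]
  exact Dvd.intro _ rfl

lemma e2_dvd (n K : ℕ) : ((n : ℤ) + 1) ∣ e2 (n + 1) K := by
  have h : e2 (n + 1) K = (n + 1) * (((n + 1 + 1).choose (2 * K + 2) : ℤ)
      * ((n + 2) * (n.choose (2 * K) : ℤ) * (10 * K ^ 2 + 8 * K + 1)
        + (-2 * (n + 1) ^ 2 + (14 * K + 10) * (n + 1) - 2 * (2 * K + 1) * (8 * K + 7))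
          * (2 * K + 1) * ((n + 1 + 1).choose (2 * K + 2) : ℤ))) := by
    have h1 := ch1 (n + 1) K
    have h2 := ch2 n K
    unfold e2 s
    push_cast at h1 ⊢
    linear_combination (((n + 1 + 1).choose (2 * K + 2) : ℤ) * (10 * K ^ 2 + 8 * K + 1)
      * (2 * K + 1)) * h1
      + (((n + 1 + 1).choose (2 * K + 2) : ℤ) * (10 * K ^ 2 + 8 * K + 1) * (n + 2)) * h2
  rw [h]
  exact Dvd.intro _ rfl

lemma W_part (N K : ℕ) : ((N : ℤ) + 1) * ∑ k ∈ range K, 2 * (21 * (k : ℤ) + 8) * (-16) ^ k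
      * ((2 * k).choose k : ℤ) ^ 2 * W N (2 * k)
    = 8 * (N + 1) * K * (-16) ^ K * Y K * W N (2 * K)
      + (-1) ^ N * 16 * ∑ k ∈ range K, (-16) ^ k * Y (k + 1) * e1 N k := by
  induction K with
  | zero => simp
  | succ K ih =>
    have h1 := W_step N K
    have h2 := Y_rec K
    rw [Finset.sum_range_succ, Finset.sum_range_succ, show 2 * (K + 1) = 2 * K + 2 by ring,
      pow_succ]
    push_cast
    linear_combination ih + (-2 * ((N : ℤ) + 1) * (-16) ^ K * W N (2 * K)) * h2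
      + (16 * (-16) ^ K * Y (K + 1)) * h1

lemma V_part (N K : ℕ) (cat : ℕ → ℤ) (hcat : ∀ k : ℕ, ((k : ℤ) + 1) * cat k = ((2 * k).choose k : ℤ)) :
    ((N : ℤ) + 1) ^ 2 * ∑ k ∈ range K, (-16) ^ k
      * ((2 * k).choose k : ℤ) ^ 2 * V N (2 * k)
    = (N + 1) ^ 2 * X K * (-1) ^ K * ((2 * K).choose K : ℤ) * V N (2 * K)
      + (-1) ^ N * ∑ k ∈ range K, X (k + 1) * (-1) ^ k * cat k * e2 N k := by
  induction K with
  | zero => simp [X]
  | succ K ih =>
    have h1 := V_step N K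
    have h2 : X (K + 1) = X K + 16 ^ K * ((2 * K).choose K : ℤ) := by
      rw [X, Finset.sum_range_succ]
      rfl
    have h3 := hcat K
    have h4 : ((2 * K + 2).choose (K + 1) : ℤ) = 2 * (2 * K + 1) * cat K := by
      have h5 := cb_rec' K
      have h6 : ((K : ℤ) + 1) ≠ 0 := by positivity
      apply mul_left_cancel₀ h6
      rw [h5, ← h3]
      ring
    have h7 : (-16 : ℤ) ^ K = 16 ^ K * (-1) ^ K := by
      rw [← mul_pow]
      norm_num
    rw [Finset.sum_range_succ, Finset.sum_range_succ, show 2 * (K + 1) = 2 * K + 2 by ring,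
      pow_succ, h4, h7, h2]
    linear_combination ih + ((X K + 16 ^ K * ((2 * K).choose K : ℤ)) * (-1) ^ K * cat K) * h1
      + (-((N : ℤ) + 1) ^ 2 * (X K + 16 ^ K * ((2 * K).choose K : ℤ)) * (-1) ^ K
        * V N (2 * K)) * h3

theorem result (n : ℕ) (hn : 1 ≤ n) :
    (n : ℤ) ∣ ∑ k ∈ range n, (-1) ^ k * (42 * (k : ℤ) + 37)
      * ∑ j ∈ range (k + 1), (k.choose j : ℤ) ^ 2 * ((k - j).choose j : ℤ) ^ 2 * (-16) ^ j := by
  obtain ⟨m, rfl⟩ : ∃ m, n = m + 1 := ⟨n - 1, by omega⟩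
  have ha : ∑ k ∈ range (m + 1), (-1) ^ k * (42 * (k : ℤ) + 37)
      * ∑ j ∈ range (k + 1), (k.choose j : ℤ) ^ 2 * ((k - j).choose j : ℤ) ^ 2 * (-16) ^ j
      = ∑ k ∈ range (m + 1), (-1) ^ k * (42 * (k : ℤ) + 37) * a k := by
    refine Finset.sum_congr rfl fun k _ => ?_
    rw [a]
    congr 1
    refine Finset.sum_congr rfl fun j _ => ?_
    ring
  rw [ha, S_eq]
  obtain ⟨cat, hcat⟩ : ∃ cat : ℕ → ℤ, ∀ k : ℕ, ((k : ℤ) + 1) * cat k = ((2 * k).choose k : ℤ) := by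
    refine ⟨fun k => (catalan k : ℤ), fun k => ?_⟩
    have := congrArg (Nat.cast : ℕ → ℤ) (succ_mul_catalan_eq_centralBinom k)
    rw [Nat.centralBinom_eq_two_mul_choose] at this
    push_cast at this
    exact this
  have hW := W_part (m + 1) (m + 1)
  have hV := V_part (m + 1) (m + 1) cat hcat
  have w0 : W (m + 1) (2 * (m + 1)) = 0 := by
    rw [W]
    apply Finset.sum_eq_zero
    intro i hi
    rw [Finset.mem_range] at hi
    rw [Nat.choose_eq_zero_of_lt (by omega)]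
    simp
  have v0 : V (m + 1) (2 * (m + 1)) = 0 := by
    rw [V]
    apply Finset.sum_eq_zero
    intro i hi
    rw [Finset.mem_range] at hi
    rw [Nat.choose_eq_zero_of_lt (by omega)]
    simp
  rw [w0] at hW
  rw [v0] at hV
  have dW : ((m : ℤ) + 1) ∣ ∑ k ∈ range (m + 1), (-16) ^ k * Y (k + 1) * e1 (m + 1) k :=
    Finset.dvd_sum fun k _ => Dvd.dvd.mul_left (e1_dvd m k) _
  have dV : ((m : ℤ) + 1) ∣ ∑ k ∈ range (m + 1), X (k + 1) * (-1) ^ k * cat k * e2 (m + 1) k :=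
    Finset.dvd_sum fun k _ => Dvd.dvd.mul_left (e2_dvd m k) _
  have hS : ((m : ℤ) + 2) ^ 2 * ∑ k ∈ range (m + 1), (-16) ^ k * ((2 * k).choose k : ℤ) ^ 2
      * (21 * V (m + 1) (2 * k) + 2 * (21 * k + 8) * W (m + 1) (2 * k))
      = 21 * (-1) ^ (m + 1) * (∑ k ∈ range (m + 1), X (k + 1) * (-1) ^ k * cat k * e2 (m + 1) k)
        + (m + 2) * (-1) ^ (m + 1) * 16
          * ∑ k ∈ range (m + 1), (-16) ^ k * Y (k + 1) * e1 (m + 1) k := by
    have e : ∑ k ∈ range (m + 1), (-16) ^ k * ((2 * k).choose k : ℤ) ^ 2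
      * (21 * V (m + 1) (2 * k) + 2 * (21 * k + 8) * W (m + 1) (2 * k))
      = 21 * (∑ k ∈ range (m + 1), (-16) ^ k * ((2 * k).choose k : ℤ) ^ 2 * V (m + 1) (2 * k))
        + ∑ k ∈ range (m + 1), 2 * (21 * (k : ℤ) + 8) * (-16) ^ k
          * ((2 * k).choose k : ℤ) ^ 2 * W (m + 1) (2 * k) := by
      rw [Finset.mul_sum, ← Finset.sum_add_distrib]
      refine Finset.sum_congr rfl fun k _ => ?_
      ring
    rw [e]
    push_cast at hW hV
    linear_combination ((m : ℤ) + 2) * hW + 21 * hV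
  have hd : ((m : ℤ) + 1) ∣ ((m : ℤ) + 2) ^ 2
      * ∑ k ∈ range (m + 1), (-16) ^ k * ((2 * k).choose k : ℤ) ^ 2
      * (21 * V (m + 1) (2 * k) + 2 * (21 * k + 8) * W (m + 1) (2 * k)) := by
    rw [hS]
    exact dvd_add (Dvd.dvd.mul_left dV _) (Dvd.dvd.mul_left dW _)
  have hc : IsCoprime ((m : ℤ) + 1) (((m : ℤ) + 2) ^ 2) := by
    apply IsCoprime.pow_right
    exact ⟨-1, 1, by ring⟩
  push_cast
  exact hc.dvd_of_dvd_mul_left hd

end Pool.Agent.Results.MP_5cc6ce_nt.Divisibility
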